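import Pool.Agent.R841.IDeg.Upper

set_option autoImplicit false

/-!
MP_ec1cce_ag, Q1: for odd `n`, the initial degree of the `k`-th symbolic power of the ideal of
`n + 3` points of `P^n` in linearly general position is
`⌈(n + 1)(n + 3) k / (n² + 2n - 1)⌉`, for every `k ≥ 1`.
-/

open MvPolynomial
open scoped LinearAlgebra.Projectivization

namespace Pool.Agent.Results.MP_ec1cce_ag.InitialDegree

universe u

/-- No `n + 1` of the points of `Z` lie on a hyperplane: a linear form vanishing at `n + 1`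
points of `Z` is zero. -/
def LinGenPos {K : Type u} [Field K] {n : ℕ} (Z : Finset (ℙ K (Fin (n + 1) → K))) : Prop :=
  ∀ T ⊆ Z, T.card = n + 1 → ∀ φ : (Fin (n + 1) → K) →ₗ[K] K, (∀ p ∈ T, φ p.rep = 0) → φ = 0

/-- The homogeneous ideal of a point of `P^n`: it is generated by the homogeneous polynomials
vanishing at the point. -/
noncomputable def pointIdeal {K : Type u} [Field K] {n : ℕ} (p : ℙ K (Fin (n + 1) → K)) :
    Ideal (MvPolynomial (Fin (n + 1)) K) :=
  Ideal.span {f | (∃ d, f.IsHomogeneous d) ∧ eval p.rep f = 0}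

/-- The `k`-th symbolic power of the ideal of `Z`. -/
noncomputable def symbolicPower {K : Type u} [Field K] {n : ℕ}
    (Z : Finset (ℙ K (Fin (n + 1) → K))) (k : ℕ) : Ideal (MvPolynomial (Fin (n + 1)) K) :=
  ⨅ p ∈ Z, pointIdeal p ^ k

/-- The initial degree of an ideal: the least degree of a nonzero homogeneous element. -/
noncomputable def initialDegree {K : Type u} [Field K] {n : ℕ}
    (I : Ideal (MvPolynomial (Fin (n + 1)) K)) : ℕ :=
  sInf {d | ∃ f ∈ I, f ≠ 0 ∧ f.IsHomogeneous d}

open Pool.Agent.R841.IDeg Finset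

theorem genPos {K : Type u} [Field K] {n : ℕ} {Z : Finset (ℙ K (Fin (n + 1) → K))}
    (hZ : Z.card = n + 3) (hgp : LinGenPos Z) {ι : Type} [Fintype ι] [DecidableEq ι]
    (e : ι ≃ Z) (i j : ι) (hij : i ≠ j) (c : ι → K) (hi : c i = 0) (hj : c j = 0)
    (hsum : ∑ l, c l • (e l).1.rep = 0) : c = 0 := by
  classical
  set S : Finset ι := univ \ {i, j} with hS
  have hcard : Fintype.card ι = n + 3 := by
    rw [Fintype.card_congr e, Fintype.card_coe, hZ]
  have hScard : S.card = n + 1 := by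
    rw [hS, Finset.card_sdiff, Finset.inter_univ, Finset.card_univ, hcard,
      Finset.card_pair hij]
    omega
  have hTcard : (S.image (fun l => (e l).1)).card = n + 1 := by
    rw [Finset.card_image_of_injective _ (fun a b h => e.injective (Subtype.ext h)), hScard]
  have hspan : ⊤ ≤ Submodule.span K (Set.range (fun l : S => (e l.1).1.rep)) := by
    by_contra hcon
    have hlt : Submodule.span K (Set.range (fun l : S => (e l.1).1.rep)) < ⊤ :=
      lt_top_iff_ne_top.2 (fun h => hcon h.ge)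
    obtain ⟨φ, hφ0, hφ⟩ := Submodule.exists_le_ker_of_lt_top _ hlt
    apply hφ0
    apply hgp (S.image (fun l => (e l).1)) ?_ hTcard φ ?_
    · intro p hp
      obtain ⟨l, _, rfl⟩ := Finset.mem_image.1 hp
      exact (e l).2
    · intro p hp
      obtain ⟨l, hl, rfl⟩ := Finset.mem_image.1 hp
      exact hφ (Submodule.subset_span ⟨⟨l, hl⟩, rfl⟩)
  have hli := linearIndependent_of_top_le_span_of_card_eq_finrank hspan (by
    rw [Fintype.card_coe, hScard]; simp)
  rw [Fintype.linearIndependent_iff] at hli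
  have h1 := hli (fun l => c l.1) (by
    rw [← hsum]
    rw [Finset.sum_coe_sort S (fun l => c l • (e l).1.rep)]
    apply Finset.sum_subset (Finset.subset_univ S)
    intro l _ hl
    rw [hS, Finset.mem_sdiff] at hl
    simp only [Finset.mem_univ, true_and, not_not, Finset.mem_insert,
      Finset.mem_singleton] at hl
    rcases hl with rfl | rfl
    · rw [hi, zero_smul]
    · rw [hj, zero_smul])
  funext l
  by_cases hl : l ∈ S
  · exact h1 ⟨l, hl⟩
  · rw [hS, Finset.mem_sdiff] at hl
    simp only [Finset.mem_univ, true_and, not_not, Finset.mem_insert,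
      Finset.mem_singleton] at hl
    rcases hl with rfl | rfl
    · exact hi
    · exact hj

/-- **Full answer (yes) to Q1** of MP_ec1cce_ag, over any infinite field. -/
theorem result (K : Type u) [Field K] [Infinite K] (n : ℕ) (hn : Odd n)
    (Z : Finset (ℙ K (Fin (n + 1) → K))) (hZ : Z.card = n + 3) (hgp : LinGenPos Z)
    (k : ℕ) :
    initialDegree (symbolicPower Z k) =
      ⌈((n + 1) * (n + 3) * k : ℚ) / ((n : ℚ) ^ 2 + 2 * n - 1)⌉₊ := by
  classical
  obtain ⟨g, rfl⟩ := hn
  -- enumeration of the points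
  have hcardι : Fintype.card (Fin (g + 2) × Bool) = (2 * g + 1) + 3 := by
    rw [Fintype.card_prod, Fintype.card_fin, Fintype.card_bool]; ring
  let e : (Fin (g + 2) × Bool) ≃ Z := Fintype.equivOfCardEq (by
    rw [hcardι, Fintype.card_coe, hZ])
  obtain ⟨α, s, hα, hc⟩ := exists_cfg hcardι (fun i => (e i).1.rep)
    (fun i j hij c hi hj hsum => genPos hZ hgp e i j hij c hi hj hsum)
  have hid : ∀ i, pIdeal (α i • (e i).1.rep) = pointIdeal (e i).1 := fun i =>
    pIdeal_smul _ _ (hα i)
  have hmem : ∀ F : MvPolynomial (Fin ((2 * g + 1) + 1)) K,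
      F ∈ symbolicPower Z k ↔ ∀ i, F ∈ pIdeal (α i • (e i).1.rep) ^ k := by
    intro F
    rw [symbolicPower]
    simp only [Submodule.mem_iInf]
    constructor
    · intro h i
      rw [hid]
      exact h _ (e i).2
    · intro h p hp
      have h1 := h (e.symm ⟨p, hp⟩)
      rw [hid, Equiv.apply_symm_apply] at h1
      exact h1
  set N : ℚ := ((((2 * g + 1 : ℕ) : ℚ)) + 1) * (((2 * g + 1 : ℕ) : ℚ) + 3) * k /
    ((((2 * g + 1 : ℕ) : ℚ)) ^ 2 + 2 * ((2 * g + 1 : ℕ) : ℚ) - 1) with hN
  have hden : (0 : ℚ) < 2 * g ^ 2 + 4 * g + 1 := by positivity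
  have hNle : ∀ d : ℕ, N ≤ d ↔ 2 * (g + 2) * (g + 1) * k ≤ (2 * g ^ 2 + 4 * g + 1) * d := by
    intro d
    have h1 : N = (2 * (g + 2) * (g + 1) * k : ℚ) / (2 * g ^ 2 + 4 * g + 1) := by
      rw [hN, div_eq_div_iff]
      · push_cast; ring
      · push_cast
        have : (0 : ℚ) < (2 * g + 1) ^ 2 + 2 * (2 * g + 1) - 1 := by nlinarith
        exact this.ne'
      · exact hden.ne'
    rw [h1, div_le_iff₀ hden]
    constructor
    · intro h
      have h2 : (2 * (g + 2) * (g + 1) * k : ℚ) ≤ (2 * g ^ 2 + 4 * g + 1) * d := by linarith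
      exact_mod_cast h2
    · intro h
      have h2 : (2 * (g + 2) * (g + 1) * k : ℚ) ≤ (2 * g ^ 2 + 4 * g + 1) * d := by
        exact_mod_cast h
      linarith
  have hleast : IsLeast {d | ∃ f ∈ symbolicPower Z k, f ≠ 0 ∧ f.IsHomogeneous d} ⌈N⌉₊ := by
    constructor
    · obtain ⟨F, h1, h2, h3⟩ := hc.upper hcardι ⌈N⌉₊ k ((hNle _).1 (Nat.le_ceil N))
      exact ⟨F, (hmem F).2 h3, h1, h2⟩
    · rintro d ⟨F, h1, h2, h3⟩
      rw [Nat.ceil_le, hNle]
      have h4 := hc.lower h2 h3 ((hmem F).1 h1)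
      have h5 : (2 * ((g : ℤ) + 2) * (g + 1) * k) ≤ (2 * (g : ℤ) ^ 2 + 4 * g + 1) * d := by
        push_cast at h4
        nlinarith
      exact_mod_cast h5
  rw [initialDegree, hleast.csInf_eq]

end Pool.Agent.Results.MP_ec1cce_ag.InitialDegree
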